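import Mathlib

set_option autoImplicit false
open MeasureTheory Set
open scoped RealInnerProductSpace

namespace Pool.Agent.P.MP_44d257_an

/-- Euclidean space `ℝⁿ`. -/
abbrev Euc (n : ℕ) : Type := EuclideanSpace ℝ (Fin n)

/-- The torus `𝕋ⁿ = ℝⁿ / ℤⁿ`, as the product of `n` copies of `ℝ / ℤ`. -/
abbrev Torus (n : ℕ) : Type := UnitAddTorus (Fin n)

variable {n : ℕ}

/-- The covering map `ℝⁿ → 𝕋ⁿ`. -/
def proj (y : Euc n) : Torus n := fun i => ((y i : ℝ) : UnitAddCircle)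

/-- `φ ∈ Cᵏ(𝕋ⁿ)`: its periodic lift to `ℝⁿ` is `Cᵏ`. -/
def IsC (k : ℕ) (φ : Torus n → ℝ) : Prop := ContDiff ℝ k fun y : Euc n => φ (proj y)

/-- The gradient `Dφ(x)` of a function on the torus. -/
noncomputable def tgrad (φ : Torus n → ℝ) (x : Torus n) : Euc n :=
  gradient (fun y : Euc n => φ (x + proj y)) 0

/-- `H ∈ C²(𝕋ⁿ × ℝⁿ)`: its lift to `ℝⁿ × ℝⁿ` is `C²`. -/
def IsC2Ham (H : Torus n × Euc n → ℝ) : Prop :=
  ContDiff ℝ 2 fun z : Euc n × Euc n => H (proj z.1, z.2)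

/-- `D_x H (x, p)`. -/
noncomputable def Dx (H : Torus n × Euc n → ℝ) (z : Torus n × Euc n) : Euc n :=
  tgrad (fun x => H (x, z.2)) z.1

/-- `D_p H (x, p)`. -/
noncomputable def Dp (H : Torus n × Euc n → ℝ) (z : Torus n × Euc n) : Euc n :=
  gradient (fun q => H (z.1, q)) z.2

/-- (A1): `min_x (H(x,p)²/2 + D_x H(x,p)·p) → +∞` as `|p| → ∞`. -/
def A1 (H : Torus n × Euc n → ℝ) : Prop :=
  ∀ M : ℝ, ∃ R : ℝ, ∀ (p : Euc n), R ≤ ‖p‖ → ∀ x : Torus n,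
    M ≤ 1 / 2 * H (x, p) ^ 2 + ⟪Dx H (x, p), p⟫

/-- (A2): `D_p H(x,p)·p ≥ (θ+1) H(x,p)` for some `θ > 0`. -/
def A2 (H : Torus n × Euc n → ℝ) : Prop :=
  ∃ θ : ℝ, 0 < θ ∧ ∀ (x : Torus n) (p : Euc n), (θ + 1) * H (x, p) ≤ ⟪Dp H (x, p), p⟫

/-- `v` is a continuous viscosity solution of `H(x, Dv) = c` in `𝕋ⁿ`. -/
def IsViscSol (H : Torus n × Euc n → ℝ) (c : ℝ) (v : Torus n → ℝ) : Prop :=
  Continuous v ∧
  (∀ (φ : Torus n → ℝ) (x : Torus n), IsC 1 φ → IsLocalMax (fun y => v y - φ y) x →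
    H (x, tgrad φ x) ≤ c) ∧
  (∀ (φ : Torus n → ℝ) (x : Torus n), IsC 1 φ → IsLocalMin (fun y => v y - φ y) x →
    c ≤ H (x, tgrad φ x))

/-- Mather measures at level `c`: Radon probability measures on `𝕋ⁿ × ℝⁿ` with (a), (b), (c),
the integrals being finite. -/
structure IsMather (H : Torus n × Euc n → ℝ) (c : ℝ) (μ : Measure (Torus n × Euc n)) : Prop where
  prob : IsProbabilityMeasure μ
  radon : μ.Regular
  level : ∀ᵐ z ∂μ, H z = c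
  int_b : Integrable (fun z => ⟪Dp H z, z.2⟫) μ
  zero_b : ∫ z, ⟪Dp H z, z.2⟫ ∂μ = 0
  int_c : ∀ φ : Torus n → ℝ, IsC 2 φ → Integrable (fun z => ⟪Dp H z, tgrad φ z.1⟫) μ
  zero_c : ∀ φ : Torus n → ℝ, IsC 2 φ → ∫ z, ⟪Dp H z, tgrad φ z.1⟫ ∂μ = 0

/-- The projected Mather set: closure of the union of the projected supports. -/
def matherSet (H : Torus n × Euc n → ℝ) (c : ℝ) : Set (Torus n) :=
  closure (⋃ μ ∈ {μ : Measure (Torus n × Euc n) | IsMather H c μ}, Prod.fst '' μ.support)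

/-- `K` is a uniqueness set for the cell problem `H(x, Dv) = c`. -/
def IsUniquenessSet (H : Torus n × Euc n → ℝ) (c : ℝ) (K : Set (Torus n)) : Prop :=
  IsClosed K ∧ ∀ v w : Torus n → ℝ, IsViscSol H c v → IsViscSol H c w → EqOn v w K → v = w

end Pool.Agent.P.MP_44d257_an
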