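import Mathlib
import Pool.Agent.P.MP_44d257_an.Defs

set_option autoImplicit false
open MeasureTheory Set Filter Topology
open scoped RealInnerProductSpace

namespace Pool.Agent.P.MP_44d257_an

variable {n : ℕ}

lemma proj_add (x y : Euc n) : proj (x + y) = proj x + proj y := by
  funext i; simp [proj]

lemma proj_zero : proj (0 : Euc n) = 0 := by
  funext i; simp [proj]

lemma proj_neg (x : Euc n) : proj (-x) = -proj x := by
  funext i; simp [proj]

lemma proj_nsmul (k : ℕ) (x : Euc n) : proj (k • x) = k • proj x := by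
  induction k with
  | zero => simp [proj_zero]
  | succ k ih => rw [succ_nsmul, succ_nsmul, proj_add, ih]

lemma isOpenQuotientMap_proj : IsOpenQuotientMap (proj : Euc n → Torus n) := by
  have h1 : IsOpenQuotientMap (Pi.map (fun (_ : Fin n) => ((↑) : ℝ → UnitAddCircle))) :=
    IsOpenQuotientMap.piMap fun _ => QuotientAddGroup.isOpenQuotientMap_mk
  exact h1.comp (PiLp.homeomorph 2 (fun _ : Fin n => ℝ)).isOpenQuotientMap

@[fun_prop]
lemma continuous_proj : Continuous (proj : Euc n → Torus n) := isOpenQuotientMap_proj.continuous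

lemma surjective_proj : Function.Surjective (proj : Euc n → Torus n) :=
  isOpenQuotientMap_proj.surjective

lemma tgrad_proj (φ : Torus n → ℝ) (y : Euc n) :
    tgrad φ (proj y) = gradient (fun z => φ (proj z)) y := by
  unfold tgrad gradient
  congr 1
  simp_rw [← proj_add]
  rw [fderiv_comp_add_left (f := fun z => φ (proj z)), add_zero]

lemma continuous_gradient_of {F : Euc n → ℝ} (hF : ContDiff ℝ 1 F) : Continuous (gradient F) := by
  unfold gradient
  exact (InnerProductSpace.toDual ℝ (Euc n)).symm.continuous.comp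
    (hF.continuous_fderiv one_ne_zero)

lemma IsC.of_two {φ : Torus n → ℝ} (h : IsC 2 φ) : IsC 1 φ :=
  ContDiff.of_le h (by norm_num)

lemma IsC.continuous {k : ℕ} {φ : Torus n → ℝ} (h : IsC k φ) : Continuous φ :=
  isOpenQuotientMap_proj.continuous_comp_iff.1 (ContDiff.continuous h)

lemma IsC.continuous_tgrad {φ : Torus n → ℝ} (h : IsC 1 φ) : Continuous (tgrad φ) := by
  rw [← isOpenQuotientMap_proj.continuous_comp_iff]
  have : tgrad φ ∘ proj = gradient (fun z => φ (proj z)) := funext fun y => tgrad_proj φ y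
  rw [this]
  exact continuous_gradient_of h

lemma IsC.add {k : ℕ} {φ ψ : Torus n → ℝ} (h1 : IsC k φ) (h2 : IsC k ψ) :
    IsC k fun x => φ x + ψ x := ContDiff.add h1 h2

lemma IsC.const_mul {k : ℕ} {φ : Torus n → ℝ} (h1 : IsC k φ) (a : ℝ) :
    IsC k fun x => a * φ x := ContDiff.mul contDiff_const h1

lemma IsC.comp_sub {k : ℕ} {φ : Torus n → ℝ} (h1 : IsC k φ) (a : Torus n) :
    IsC k fun x => φ (x - a) := by
  obtain ⟨b, rfl⟩ := surjective_proj a
  have : (fun y : Euc n => φ (proj y - proj b)) = (fun y => φ (proj y)) ∘ fun y => y - b := by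
    funext y
    simp only [Function.comp, sub_eq_add_neg, proj_add, proj_neg]
  unfold IsC
  rw [this]
  exact ContDiff.comp h1 (contDiff_id.sub contDiff_const)

lemma IsC.comp_const_sub {k : ℕ} {φ : Torus n → ℝ} (h1 : IsC k φ) (a : Torus n) :
    IsC k fun x => φ (a - x) := by
  obtain ⟨b, rfl⟩ := surjective_proj a
  have : (fun y : Euc n => φ (proj b - proj y)) = (fun y => φ (proj y)) ∘ fun y => b - y := by
    funext y
    simp only [Function.comp, sub_eq_add_neg, proj_add, proj_neg]
  unfold IsC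
  rw [this]
  exact ContDiff.comp h1 (contDiff_const.sub contDiff_id)

lemma tgrad_add {φ ψ : Torus n → ℝ} (h1 : IsC 1 φ) (h2 : IsC 1 ψ) (x : Torus n) :
    tgrad (fun x => φ x + ψ x) x = tgrad φ x + tgrad ψ x := by
  obtain ⟨y, rfl⟩ := surjective_proj x
  simp only [tgrad_proj, gradient]
  rw [fderiv_fun_add (ContDiff.differentiable h1 (by simp) y)
    (ContDiff.differentiable h2 (by simp) y), map_add]

lemma tgrad_const_mul {φ : Torus n → ℝ} (h1 : IsC 1 φ) (a : ℝ) (x : Torus n) :
    tgrad (fun x => a * φ x) x = a • tgrad φ x := by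
  obtain ⟨y, rfl⟩ := surjective_proj x
  simp only [tgrad_proj, gradient]
  rw [fderiv_const_mul (ContDiff.differentiable h1 (by simp) y), map_smulₛₗ]
  simp

lemma tgrad_comp_sub (φ : Torus n → ℝ) (a x : Torus n) :
    tgrad (fun x => φ (x - a)) x = tgrad φ (x - a) := by
  unfold tgrad
  congr 1
  funext y
  simp only [add_sub_right_comm]

lemma tgrad_comp_const_sub {φ : Torus n → ℝ} (h1 : IsC 1 φ) (a x : Torus n) :
    tgrad (fun x => φ (a - x)) x = -tgrad φ (a - x) := by
  obtain ⟨b, hb⟩ := surjective_proj (a - x)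
  rw [← hb, tgrad_proj]
  unfold tgrad gradient
  rw [← map_neg]
  congr 1
  have e : (fun y : Euc n => φ (a - (x + proj y))) = (fun z => φ (proj z)) ∘ fun y => b - y := by
    funext y
    simp only [Function.comp, sub_eq_add_neg b, proj_add, proj_neg, hb]
    congr 1; abel
  rw [e]
  have h2 : HasFDerivAt (fun y : Euc n => b - y) (-ContinuousLinearMap.id ℝ (Euc n)) 0 :=
    (hasFDerivAt_id _).const_sub b
  have h3 : HasFDerivAt (fun z => φ (proj z)) (fderiv ℝ (fun z => φ (proj z)) b) (b - 0) := by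
    rw [sub_zero]; exact (ContDiff.differentiable h1 (by simp) b).hasFDerivAt
  rw [(h3.comp 0 h2).fderiv]
  ext v
  simp

variable {H : Torus n × Euc n → ℝ}

lemma isOpenQuotientMap_proj_prod :
    IsOpenQuotientMap (Prod.map proj id : Euc n × Euc n → Torus n × Euc n) :=
  isOpenQuotientMap_proj.prodMap IsOpenQuotientMap.id

lemma IsC2Ham.continuous (h : IsC2Ham H) : Continuous H :=
  isOpenQuotientMap_proj_prod.continuous_comp_iff.1 (ContDiff.continuous h)

lemma IsC2Ham.contDiff_p (h : IsC2Ham H) (x : Torus n) : ContDiff ℝ 2 fun q => H (x, q) := by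
  obtain ⟨y, rfl⟩ := surjective_proj x
  exact ContDiff.comp (f := fun q : Euc n => (y, q)) h (contDiff_const.prodMk contDiff_id)

lemma IsC2Ham.isC_x (h : IsC2Ham H) (p : Euc n) : IsC 2 fun x => H (x, p) :=
  ContDiff.comp (f := fun y : Euc n => (y, p)) h (contDiff_id.prodMk contDiff_const)

lemma IsC2Ham.continuous_Dp (h : IsC2Ham H) : Continuous (Dp H) := by
  rw [← isOpenQuotientMap_proj_prod.continuous_comp_iff]
  have h1 : Continuous fun z : Euc n × Euc n =>
      fderiv ℝ (fun q => H (proj z.1, q)) z.2 := by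
    have h2 : ContDiff ℝ 2 (Function.uncurry
        fun (z : Euc n × Euc n) (q : Euc n) => H (proj z.1, q)) :=
      ContDiff.comp (f := fun w : (Euc n × Euc n) × Euc n => (w.1.1, w.2)) h (by fun_prop)
    exact (ContDiff.fderiv (n := 1) (m := 2) h2 contDiff_snd (by norm_num)).continuous
  exact (InnerProductSpace.toDual ℝ (Euc n)).symm.continuous.comp h1

/-- derivative of `H (x, ·)` along a curve -/
lemma IsC2Ham.hasDerivAt_p (h : IsC2Ham H) (x : Torus n) {γ : ℝ → Euc n} {γ' : Euc n} {s : ℝ}
    (hγ : HasDerivAt γ γ' s) :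
    HasDerivAt (fun s => H (x, γ s)) ⟪Dp H (x, γ s), γ'⟫ s := by
  have h1 := ((h.contDiff_p x).differentiable (by simp) (γ s)).hasFDerivAt.comp_hasDerivAt s hγ
  unfold Dp
  rw [inner_gradient_left]
  exact h1

/-- derivative of `H (·, p)` along the linear flow -/
lemma IsC2Ham.hasDerivAt_x (h : IsC2Ham H) (x : Torus n) (p v : Euc n) (s : ℝ) :
    HasDerivAt (fun s : ℝ => H (x + proj (s • v), p)) ⟪Dx H (x + proj (s • v), p), v⟫ s := by
  obtain ⟨y, rfl⟩ := surjective_proj x
  simp_rw [← proj_add]
  have hγ : HasDerivAt (fun s : ℝ => y + s • v) v s := by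
    simpa using ((hasDerivAt_id s).smul_const v).const_add y
  have h1 := (ContDiff.differentiable (h.isC_x p) (by simp)
    (y + s • v)).hasFDerivAt.comp_hasDerivAt s hγ
  unfold Dx
  simp only
  rw [tgrad_proj, inner_gradient_left]
  exact h1

end Pool.Agent.P.MP_44d257_an
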