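import Mathlib
import Pool.Agent.P.MP_44d257_an.Basic

set_option autoImplicit false
open MeasureTheory Set Filter Topology
open scoped RealInnerProductSpace CompactlySupported

namespace Pool.Agent.P.MP_44d257_an

variable {n : ℕ} {H : Torus n × Euc n → ℝ}

/-- Step A: (A1) forces `H ≠ 0` for large momenta (recurrence of the linear flow). -/
lemma ne_zero_of_large (hH : IsC2Ham H) (h1 : A1 H) :
    ∃ R : ℝ, 0 ≤ R ∧ ∀ (x : Torus n) (p : Euc n), R ≤ ‖p‖ → H (x, p) ≠ 0 := by
  obtain ⟨R, hR⟩ := h1 1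
  refine ⟨max R 0, le_max_right _ _, fun x p hp h0 => ?_⟩
  have hp' : R ≤ ‖p‖ := (le_max_left _ _).trans hp
  set f : ℝ → ℝ := fun s => H (x + proj (s • p), p) with hf
  set f' : ℝ → ℝ := fun s => ⟪Dx H (x + proj (s • p), p), p⟫ with hf'
  have hd : ∀ s, HasDerivAt f (f' s) s := fun s => hH.hasDerivAt_x x p p s
  have hb : ∀ s, 1 ≤ 1 / 2 * f s ^ 2 + f' s := fun s => hR p hp' _
  have hf0 : f 0 = 0 := by simp [hf, proj_zero, h0]
  have hc : Continuous f := continuous_iff_continuousAt.2 fun s => (hd s).continuousAt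
  obtain ⟨s₁, hs₁, hη0, hη1⟩ : ∃ s₁ : ℝ, 0 < s₁ ∧ 0 < f s₁ ∧ f s₁ < 1 := by
    have e1 : 0 < f' 0 := by have := hb 0; rw [hf0] at this; linarith
    have e2 := (hasDerivAt_iff_tendsto_slope_left_right.1 (hd 0)).2.eventually (lt_mem_nhds e1)
    have e3 : ∀ᶠ s in 𝓝[>] (0 : ℝ), f s < 1 :=
      (hc.continuousAt.eventually (gt_mem_nhds (by rw [hf0]; norm_num))).filter_mono
        nhdsWithin_le_nhds
    obtain ⟨s, ⟨h2, h3⟩, h4⟩ := ((e2.and e3).and self_mem_nhdsWithin).exists
    refine ⟨s, h4, ?_, h3⟩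
    rw [slope_def_field, hf0, sub_zero, sub_zero] at h2
    exact (div_pos_iff_of_pos_right h4).1 h2
  have hge : ∀ s, s₁ ≤ s → f s₁ ≤ f s := by
    intro s hs
    have := image_le_of_deriv_right_lt_deriv_boundary (f := fun s => -f s) (f' := fun s => -f' s)
      (a := s₁) (b := s) hc.neg.continuousOn (fun y _ => (hd y).neg.hasDerivWithinAt)
      (B := fun _ => -f s₁) (B' := fun _ => 0) le_rfl (fun y => hasDerivAt_const y _)
      (fun y _ hy => by
        have h5 := hb y
        have h6 : f y = f s₁ := by linarith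
        rw [h6] at h5
        nlinarith) (right_mem_Icc.2 hs)
    linarith
  have hcl : IsClosed {y : Torus n | f s₁ ≤ H (x + y, p)} :=
    isClosed_le continuous_const (hH.continuous.comp (by fun_prop))
  have hmem : (0 : Torus n) ∈ {y : Torus n | f s₁ ≤ H (x + y, p)} := by
    refine hcl.mem_of_mapClusterPt (mapClusterPt_zero_atTop_nsmul (proj (s₁ • p))) ?_
    filter_upwards [eventually_ge_atTop 1] with k hk
    have hk' : (1 : ℝ) ≤ k := by exact_mod_cast hk
    have := hge (k * s₁) (by nlinarith)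
    simp only [hf] at this ⊢
    rw [← proj_nsmul, ← Nat.cast_smul_eq_nsmul ℝ, smul_smul]
    exact this
  rw [mem_ofPred_eq, add_zero, h0] at hmem
  linarith

/-- Step B1: sublevel set `{H (x, ·) ≤ 0}` is star-shaped. -/
lemma star_shaped (hH : IsC2Ham H) (h2 : A2 H) {x : Torus n} {p : Euc n} (h : H (x, p) ≤ 0)
    {t : ℝ} (ht0 : 0 < t) (ht1 : t ≤ 1) : H (x, t • p) ≤ 0 := by
  obtain ⟨θ, -, hθ⟩ := h2
  set g : ℝ → ℝ := fun u => Real.exp (-(θ + 1) * u) * H (x, Real.exp u • p) with hg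
  have hd : ∀ u, HasDerivAt g (Real.exp (-(θ + 1) * u) * (-(θ + 1)) * H (x, Real.exp u • p)
      + Real.exp (-(θ + 1) * u) * ⟪Dp H (x, Real.exp u • p), Real.exp u • p⟫) u := by
    intro u
    have e1 : HasDerivAt (fun u => Real.exp (-(θ + 1) * u))
        (Real.exp (-(θ + 1) * u) * (-(θ + 1))) u := by
      simpa using ((hasDerivAt_id u).const_mul (-(θ + 1))).exp
    exact e1.mul (hH.hasDerivAt_p x ((Real.hasDerivAt_exp u).smul_const p))
  have hm : Monotone g := by
    refine monotone_of_deriv_nonneg (fun u => (hd u).differentiableAt) fun u => ?_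
    rw [(hd u).deriv]
    have := hθ x (Real.exp u • p)
    have h3 := Real.exp_pos (-(θ + 1) * u)
    nlinarith
  have h4 := hm (Real.log_nonpos ht0.le ht1)
  simp only [hg, Real.exp_log ht0, mul_zero, Real.exp_zero, one_smul, one_mul] at h4
  have h5 := Real.exp_pos (-(θ + 1) * Real.log t)
  by_contra h6
  push Not at h6
  nlinarith [mul_pos h5 h6]

/-- Step B3. -/
lemma degenerate (hH : IsC2Ham H) (h2 : A2 H) {x : Torus n} {p : Euc n} (h : H (x, p) ≤ 0)
    {t : ℝ} (ht0 : 0 < t) (ht1 : t < 1) (h0 : H (x, t • p) = 0) :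
    ⟪Dp H (x, t • p), t • p⟫ = 0 := by
  have h3 : 0 ≤ ⟪Dp H (x, t • p), t • p⟫ := by
    obtain ⟨θ, -, hθ⟩ := h2
    simpa [h0] using hθ x (t • p)
  refine le_antisymm ?_ h3
  have hd : HasDerivAt (fun s : ℝ => H (x, s • p)) ⟪Dp H (x, t • p), p⟫ t :=
    hH.hasDerivAt_p x (γ := fun s : ℝ => s • p) (by simpa using (hasDerivAt_id t).smul_const p)
  have h4 : ⟪Dp H (x, t • p), p⟫ ≤ 0 := by
    refine le_of_tendsto (hasDerivAt_iff_tendsto_slope_left_right.1 hd).2 ?_
    filter_upwards [Ioo_mem_nhdsGT ht1] with s hs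
    rw [slope_def_field, h0, sub_zero]
    exact div_nonpos_of_nonpos_of_nonneg (star_shaped hH h2 h (ht0.trans hs.1) hs.2.le)
      (by linarith [hs.1])
  rw [inner_smul_right]
  exact mul_nonpos_of_nonneg_of_nonpos ht0.le h4

/-- Step C: a priori bound on the momenta in the doubling argument. -/
lemma apriori (hH : IsC2Ham H) (h1 : A1 H) (h2 : A2 H) {t : ℝ} (ht0 : 0 < t) (ht1 : t ≤ 1)
    (B : ℝ) : ∃ R' : ℝ, ∀ (x y : Torus n) (p q : Euc n), ‖q‖ ≤ B → H (x, p) ≤ 0 →
      0 ≤ H (y, t • p + q) → ‖p‖ ≤ R' := by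
  obtain ⟨R, hR0, hR⟩ := ne_zero_of_large hH h1
  refine ⟨(R + B) / t, fun x y p q hq hx hy => ?_⟩
  by_contra hp
  push Not at hp
  rw [div_lt_iff₀ ht0] at hp
  obtain ⟨a, rfl⟩ := surjective_proj x
  obtain ⟨b, rfl⟩ := surjective_proj y
  have hc : Continuous fun s : ℝ => H (proj (a + s • (b - a)), t • p + s • q) :=
    hH.continuous.comp (by fun_prop)
  have hx' := star_shaped hH h2 hx ht0 ht1
  obtain ⟨s, hs, hs0⟩ := intermediate_value_Icc (zero_le_one' ℝ) hc.continuousOn
    (show (0 : ℝ) ∈ Icc _ _ from ⟨by simpa using hx', by simpa using hy⟩)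
  refine hR _ _ ?_ hs0
  have e1 : ‖t • p‖ ≤ ‖t • p + s • q‖ + ‖s • q‖ := by
    simpa using norm_sub_le (t • p + s • q) (s • q)
  have e2 : ‖s • q‖ ≤ B := by
    rw [norm_smul, Real.norm_of_nonneg hs.1]
    nlinarith [hs.1, hs.2, norm_nonneg q]
  rw [norm_smul, Real.norm_of_nonneg ht0.le] at e1
  linarith

/-- Hahn-Banach plus Riesz: a subspace of `C(X)` with no positive function is annihilated by a
probability measure. -/
lemma exists_annihilator {X : Type*} [TopologicalSpace X] [CompactSpace X] [T2Space X]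
    [MeasurableSpace X] [BorelSpace X] (V : Submodule ℝ C(X, ℝ))
    (hV : ∀ f ∈ V, ¬ ∀ x, 0 < f x) :
    ∃ ν : Measure X, IsProbabilityMeasure ν ∧ ∀ f ∈ V, ∫ x, f x ∂ν = 0 := by
  set s : Set C(X, ℝ) := {f | ∀ x, 0 < f x} with hs
  have hconv : Convex ℝ s := by
    intro f hf g hg a b ha hb hab x
    have h1 := hf x
    have h2 := hg x
    simp only [ContinuousMap.add_apply, ContinuousMap.smul_apply, smul_eq_mul]
    rcases ha.eq_or_lt with rfl | ha'
    · have : b = 1 := by linarith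
      rw [this]; linarith
    · positivity
  have hopen : IsOpen s := by
    have : s = {f : C(X, ℝ) | MapsTo f univ (Ioi 0)} := by
      ext f; simp [hs, MapsTo]
    rw [this]
    exact ContinuousMap.isOpen_setOfPred_mapsTo isCompact_univ isOpen_Ioi
  obtain ⟨Λ, u, hΛ1, hΛ2⟩ := geometric_hahn_banach_open hconv hopen V.convex
    (disjoint_left.2 fun f hf hfV => hV f hfV hf)
  have hu : u ≤ 0 := by simpa using hΛ2 0 V.zero_mem
  have hΛ0 : ∀ f ∈ V, Λ f = 0 := by
    intro f hf
    by_contra h0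
    have := hΛ2 (((u - 1) / Λ f) • f) (V.smul_mem _ hf)
    rw [map_smul, smul_eq_mul, div_mul_cancel₀ _ h0] at this
    linarith
  have h1 : Λ 1 < 0 := (hΛ1 1 fun x => by simp).trans_le hu
  have hnn : ∀ f : C(X, ℝ), (∀ x, 0 ≤ f x) → Λ f ≤ 0 := by
    intro f hf
    by_contra h0
    push Not at h0
    have hε : 0 < Λ f / (-Λ 1) := div_pos h0 (by linarith)
    have := hΛ1 (f + (Λ f / (-Λ 1)) • 1) fun x => by
      have := hf x
      simp only [ContinuousMap.add_apply, ContinuousMap.smul_apply, ContinuousMap.one_apply,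
        smul_eq_mul]
      linarith
    rw [map_add, map_smul, smul_eq_mul] at this
    have e : Λ f / (-Λ 1) * Λ 1 = -Λ f := by
      have := h1.ne
      field_simp
    linarith
  let L : C_c(X, ℝ) →ₚ[ℝ] ℝ :=
    { toFun := fun g => Λ g.toContinuousMap / Λ 1
      map_add' := fun g g' => by
        rw [← add_div, ← map_add]; rfl
      map_smul' := fun c g => by
        rw [RingHom.id_apply, smul_eq_mul, ← mul_div_assoc, ← smul_eq_mul, ← map_smul]; rfl
      monotone' := fun g g' hgg' => by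
        have := hnn (g'.toContinuousMap - g.toContinuousMap) fun x => by
          have := hgg' x
          simpa using this
        rw [map_sub] at this
        exact div_le_div_of_nonpos_of_le h1.le (by linarith) }
  have hint : ∀ f : C(X, ℝ), ∫ x, f x ∂(RealRMK.rieszMeasure L) = Λ f / Λ 1 := fun f =>
    RealRMK.integral_rieszMeasure L ⟨f, HasCompactSupport.of_compactSpace _⟩
  refine ⟨RealRMK.rieszMeasure L, ?_, fun f hf => by rw [hint, hΛ0 f hf, zero_div]⟩
  have := hint 1
  rw [div_self h1.ne] at this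
  simp only [ContinuousMap.one_apply, integral_const, smul_eq_mul, mul_one] at this
  exact isProbabilityMeasure_iff_real.2 this

/-- Step D: off the Mather set there is a function increasing along `D_p H` on the degenerate
set. -/
lemma exists_psi (hH : IsC2Ham H) (h1 : A1 H) {K : Set (Torus n)} (hK : IsClosed K)
    (hKM : Disjoint K (matherSet H 0)) :
    ∃ ψ : Torus n → ℝ, IsC 2 ψ ∧ ∀ x ∈ K, ∀ p : Euc n, H (x, p) = 0 → ⟪Dp H (x, p), p⟫ = 0 →
      0 < ⟪Dp H (x, p), tgrad ψ x⟫ := by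
  obtain ⟨R, -, hR⟩ := ne_zero_of_large hH h1
  set D : Set (Torus n × Euc n) := {z | z.1 ∈ K ∧ H z = 0 ∧ ⟪Dp H z, z.2⟫ = 0} with hD
  have cH := hH.continuous
  have cD := hH.continuous_Dp
  have hDc : IsClosed D := (hK.preimage continuous_fst).inter
    ((isClosed_eq cH continuous_const).inter (isClosed_eq (by fun_prop) continuous_const))
  have hDk : IsCompact D := by
    refine (isCompact_univ.prod (isCompact_closedBall (0 : Euc n) R)).of_isClosed_subset hDc ?_
    rintro ⟨x, p⟩ hz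
    refine ⟨mem_univ _, ?_⟩
    rw [mem_closedBall_zero_iff]
    by_contra h
    exact hR x p (not_le.1 h).le hz.2.1
  have : CompactSpace D := isCompact_iff_compactSpace.1 hDk
  let V : Submodule ℝ C(D, ℝ) :=
    { carrier := {f | ∃ φ : Torus n → ℝ, IsC 2 φ ∧ ∀ z : D, f z = ⟪Dp H z.1, tgrad φ z.1.1⟫}
      add_mem' := by
        rintro f g ⟨φ, hφ, hf⟩ ⟨ψ, hψ, hg⟩
        refine ⟨_, hφ.add hψ, fun z => ?_⟩
        rw [tgrad_add hφ.of_two hψ.of_two, inner_add_right, ← hf, ← hg]; rfl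
      zero_mem' := ⟨fun _ => 0, contDiff_const, fun z => by simp [tgrad]⟩
      smul_mem' := by
        rintro a f ⟨φ, hφ, hf⟩
        refine ⟨_, hφ.const_mul a, fun z => ?_⟩
        rw [tgrad_const_mul hφ.of_two, inner_smul_right, ← hf]; rfl }
  by_contra hcon
  obtain ⟨ν, hν, hν0⟩ := exists_annihilator V (by
    rintro f ⟨φ, hφ, hf⟩ hpos
    refine hcon ⟨φ, hφ, fun x hx p hp1 hp2 => ?_⟩
    have := hpos ⟨(x, p), hx, hp1, hp2⟩
    rwa [hf] at this)
  set μ : Measure (Torus n × Euc n) := ν.map Subtype.val with hμ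
  have hemb : MeasurableEmbedding (Subtype.val : D → Torus n × Euc n) :=
    MeasurableEmbedding.subtype_coe hDc.measurableSet
  have hprob : IsProbabilityMeasure μ := Measure.isProbabilityMeasure_map hemb.measurable.aemeasurable
  have hae : ∀ᵐ z ∂μ, z ∈ D := by
    rw [hμ, hemb.ae_map_iff]
    exact Eventually.of_forall fun z => z.2
  have hint : ∀ F : Torus n × Euc n → ℝ, Continuous F → Integrable F μ := by
    intro F hF
    rw [hμ, hemb.integrable_map_iff]
    exact (hF.comp continuous_subtype_val).integrable_of_hasCompactSupport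
      (HasCompactSupport.of_compactSpace _)
  have hM : IsMather H 0 μ :=
    { prob := hprob
      radon := inferInstance
      level := hae.mono fun z hz => hz.2.1
      int_b := hint _ (by fun_prop)
      zero_b := by
        rw [integral_congr_ae (hae.mono fun z hz => hz.2.2)]
        simp
      int_c := fun φ hφ => hint _ (by have := hφ.of_two.continuous_tgrad; fun_prop)
      zero_c := fun φ hφ => by
        rw [hμ, hemb.integral_map]
        have := hφ.of_two.continuous_tgrad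
        exact hν0 ⟨fun z => ⟪Dp H z.1, tgrad φ z.1.1⟫, by fun_prop⟩ ⟨φ, hφ, fun z => rfl⟩ }
  obtain ⟨z, hz⟩ := Measure.nonempty_support (IsProbabilityMeasure.ne_zero μ)
  have hzD : z ∈ D := Measure.support_subset_of_isClosed hDc hae hz
  refine disjoint_left.1 hKM hzD.1 (subset_closure ?_)
  simp only [mem_iUnion]
  exact ⟨μ, hM, z, hz, rfl⟩

/-- Step E: strictness. -/
lemma strict (hH : IsC2Ham H) (h2 : A2 H) {K : Set (Torus n)} (hK : IsClosed K)
    {ψ : Torus n → ℝ} (hψ : IsC 2 ψ)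
    (hpos : ∀ x ∈ K, ∀ p : Euc n, H (x, p) = 0 → ⟪Dp H (x, p), p⟫ = 0 →
      0 < ⟪Dp H (x, p), tgrad ψ x⟫) {t : ℝ} (ht0 : 0 < t) (ht1 : t < 1) (R' : ℝ) :
    ∀ᶠ ε in 𝓝 (0 : ℝ), 0 < ε → ∀ x ∈ K, ∀ p : Euc n, ‖p‖ ≤ R' → H (x, p) ≤ 0 →
      H (x, t • p + -(ε • tgrad ψ x)) < 0 := by
  have cH := hH.continuous
  have cD := hH.continuous_Dp
  have cψ := hψ.of_two.continuous_tgrad
  set C : Set (Torus n × Euc n) := (K ×ˢ Metric.closedBall 0 R') ∩ {z | H z ≤ 0} with hC
  have hCk : IsCompact C :=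
    (hK.isCompact.prod (isCompact_closedBall _ _)).inter_right (isClosed_le cH continuous_const)
  have key : ∀ᶠ ε in 𝓝 (0 : ℝ), ∀ z ∈ C, (0 < ε → H z ≤ 0 →
      H (z.1, t • z.2 + -(ε • tgrad ψ z.1)) < 0) := by
    apply hCk.eventually_forall_of_forall_eventually
    rintro ⟨x, p⟩ ⟨⟨hx, -⟩, hp⟩
    rcases (star_shaped hH h2 hp ht0 ht1.le).lt_or_eq with hlt | heq
    · have hc : Continuous fun w : ℝ × (Torus n × Euc n) =>
          H (w.2.1, t • w.2.2 + -(w.1 • tgrad ψ w.2.1)) := by fun_prop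
      have := (hc.continuousAt (x := (0, (x, p)))).eventually (gt_mem_nhds (by simpa using hlt))
      exact this.mono fun w hw _ _ => hw
    · have h3 := hpos x hx _ heq (degenerate hH h2 hp ht0 ht1 heq)
      have hc : Continuous fun w : ℝ × (Torus n × Euc n) =>
          ⟪Dp H (w.2.1, t • w.2.2 + -(w.1 • tgrad ψ w.2.1)), tgrad ψ w.2.1⟫ := by fun_prop
      have h4 := (hc.continuousAt (x := (0, (x, p)))).eventually
        (lt_mem_nhds (by simpa using h3))
      rw [nhds_prod_eq] at h4 ⊢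
      obtain ⟨P, hP, Q, hQ, hPQ⟩ := eventually_prod_iff.1 h4
      obtain ⟨δ, hδ, hδP⟩ := Metric.eventually_nhds_iff.1 hP
      refine eventually_prod_iff.2 ⟨fun ε => ε < δ, gt_mem_nhds hδ, Q, hQ, ?_⟩
      intro ε hε z hz hε0 hz0
      have hd : ∀ s : ℝ, HasDerivAt (fun s : ℝ => H (z.1, t • z.2 + -(s • tgrad ψ z.1)))
          ⟪Dp H (z.1, t • z.2 + -(s • tgrad ψ z.1)), -tgrad ψ z.1⟫ s := fun s =>
        hH.hasDerivAt_p z.1 (γ := fun s : ℝ => t • z.2 + -(s • tgrad ψ z.1))
          (by simpa using (((hasDerivAt_id s).smul_const (tgrad ψ z.1)).neg).const_add (t • z.2))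
      have hanti : StrictAntiOn (fun s : ℝ => H (z.1, t • z.2 + -(s • tgrad ψ z.1))) (Icc 0 ε) := by
        refine strictAntiOn_of_deriv_neg (convex_Icc _ _) (by fun_prop) fun s hs => ?_
        rw [interior_Icc] at hs
        rw [(hd s).deriv, inner_neg_right, neg_lt_zero]
        refine hPQ (hδP ?_) hz
        rw [Real.dist_eq, sub_zero, abs_of_pos hs.1]
        exact hs.2.trans hε
      have h5 := hanti (left_mem_Icc.2 hε0.le) (right_mem_Icc.2 hε0.le) hε0
      simp only [zero_smul, neg_zero, add_zero] at h5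
      exact h5.trans_le (star_shaped hH h2 hz0 ht0 ht1.le)
  filter_upwards [key] with ε hε hε0 x hx p hp hxp
  exact hε (x, p) ⟨⟨hx, mem_closedBall_zero_iff.2 hp⟩, hxp⟩ hε0 hxp

end Pool.Agent.P.MP_44d257_an
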