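import Mathlib
import Pool.Agent.P.MP_44d257_an.Steps

set_option autoImplicit false
open MeasureTheory Set Filter Topology
open scoped RealInnerProductSpace Real

namespace Pool.Agent.P.MP_44d257_an

variable {n : ℕ} {H : Torus n × Euc n → ℝ}

/-- A smooth penalisation function on the torus. -/
lemma exists_penal (n : ℕ) :
    ∃ d : Torus n → ℝ, IsC 1 d ∧ (∀ z, 0 ≤ d z) ∧ d 0 = 0 ∧ ∀ z, d z = 0 → z = 0 := by
  have h0 : ∀ a : UnitAddCircle, 0 ≤ 1 - (fourier 1 a).re := fun a => by
    have := Complex.re_le_norm (fourier 1 a)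
    rw [fourier_apply, Circle.norm_coe] at this
    rw [fourier_apply]
    linarith
  refine ⟨fun z => ∑ i, (1 - (fourier 1 (z i)).re), ?_,
    fun z => Finset.sum_nonneg fun i _ => h0 _, by simp, fun z hz => ?_⟩
  · unfold IsC
    refine ContDiff.sum fun i _ => contDiff_const.sub ?_
    have : (fun y : Euc n => (fourier 1 (proj y i)).re) = fun y => Real.cos (2 * π * y i) := by
      funext y
      simp only [proj]
      rw [fourier_coe_apply, ← Complex.exp_ofReal_mul_I_re]
      congr 2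
      push_cast; ring
    rw [this]
    fun_prop
  · funext i
    have h1 := (Finset.sum_eq_zero_iff_of_nonneg fun i _ => h0 (z i)).1 hz i (Finset.mem_univ _)
    rw [fourier_one] at h1
    have h2 : ((AddCircle.toCircle (z i) : Circle) : ℂ) = 1 := by
      have h3 := Circle.normSq_coe (AddCircle.toCircle (z i))
      rw [Complex.normSq_apply] at h3
      have h4 : ((AddCircle.toCircle (z i) : Circle) : ℂ).re = 1 := by linarith
      rw [h4] at h3
      exact Complex.ext h4 (by simpa using h3)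
    refine AddCircle.injective_toCircle one_ne_zero ?_
    rw [Pi.zero_apply, AddCircle.toCircle_zero]
    exact Circle.ext h2

/-- Step F: doubling of variables. -/
lemma doubling (hH : IsC2Ham H) (h1 : A1 H) (h2 : A2 H) {v w : Torus n → ℝ}
    (hv : IsViscSol H 0 v) (hw : IsViscSol H 0 w) {χ : Torus n → ℝ} (hχ : IsC 1 χ) {t : ℝ}
    (ht0 : 0 < t) (ht1 : t ≤ 1) :
    ∃ (x : Torus n) (p : Euc n), (∀ z, t * v z + χ z - w z ≤ t * v x + χ x - w x) ∧
      H (x, p) ≤ 0 ∧ 0 ≤ H (x, t • p + tgrad χ x) := by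
  obtain ⟨d, hd, hd0, hd1, hd2⟩ := exists_penal n
  have cv := hv.1
  have cw := hw.1
  have cχ := hχ.continuous
  have cd := hd.continuous
  have cg := hχ.continuous_tgrad
  have cH := hH.continuous
  obtain ⟨B, hB⟩ := (isCompact_range cg).isBounded.exists_norm_le
  obtain ⟨R', hR'⟩ := apriori hH h1 h2 ht0 ht1 B
  obtain ⟨C, hC⟩ := (isCompact_range (f := fun q : Torus n × Torus n =>
    t * v q.1 + χ q.2 - w q.2) (by fun_prop)).isBounded.exists_norm_le
  have hC' : ∀ x y, |t * v x + χ y - w y| ≤ C := fun x y => hC _ ⟨(x, y), rfl⟩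
  have step : ∀ k : ℕ, ∃ a : (Torus n × Torus n) × Euc n,
      a ∈ (univ : Set (Torus n × Torus n)) ×ˢ Metric.closedBall (0 : Euc n) R' ∧
      H (a.1.1, a.2) ≤ 0 ∧ 0 ≤ H (a.1.2, t • a.2 + tgrad χ a.1.2) ∧
      (∀ z, t * v z + χ z - w z ≤ t * v a.1.1 + χ a.1.2 - w a.1.2) ∧
      k * (t * d (a.1.1 - a.1.2)) ≤ 2 * C := by
    intro k
    obtain ⟨⟨x, y⟩, -, hmax⟩ := isCompact_univ.exists_isMaxOn (univ_nonempty)
      (f := fun q : Torus n × Torus n => t * v q.1 + χ q.2 - w q.2 - k * (t * d (q.1 - q.2)))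
      (by fun_prop)
    have hm : ∀ x' y', t * v x' + χ y' - w y' - k * (t * d (x' - y'))
        ≤ t * v x + χ y - w y - k * (t * d (x - y)) := fun x' y' => hmax (mem_univ (x', y'))
    have e1 := hv.2.1 (fun x' => k * d (x' - y)) x ((hd.comp_sub y).const_mul k)
      (Eventually.of_forall fun x' => by
        have := hm x' y
        refine le_of_mul_le_mul_left ?_ ht0
        simp only
        linarith)
    have e2 := hw.2.2 (fun y' => (-(k * t)) * d (x - y') + χ y') y
      (((hd.comp_const_sub x).const_mul _).add hχ)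
      (Eventually.of_forall fun y' => by
        have := hm x y'
        simp only
        linarith)
    rw [tgrad_const_mul (hd.comp_sub y), tgrad_comp_sub] at e1
    rw [tgrad_add ((hd.comp_const_sub x).const_mul _) hχ, tgrad_const_mul (hd.comp_const_sub x),
      tgrad_comp_const_sub hd] at e2
    have e3 : -(k * t) • -tgrad d (x - y) = t • (k : ℝ) • tgrad d (x - y) := by
      rw [smul_smul, neg_smul_neg, mul_comm]
    rw [e3] at e2
    have e4 : 0 ≤ k * (t * d (x - y)) := by have := hd0 (x - y); positivity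
    refine ⟨((x, y), (k : ℝ) • tgrad d (x - y)), ⟨mem_univ _, ?_⟩, e1, e2, fun z => ?_, ?_⟩
    · exact mem_closedBall_zero_iff.2 (hR' x y _ _ (hB _ (mem_range_self y)) e1 e2)
    · have := hm z z
      rw [sub_self, hd1] at this
      simp only
      linarith
    · have := hm x x
      rw [sub_self, hd1] at this
      have e5 := abs_le.1 (hC' x x)
      have e6 := abs_le.1 (hC' x y)
      simp only
      linarith
  choose a ha1 ha2 ha3 ha4 ha5 using step
  obtain ⟨⟨⟨x, y⟩, p⟩, -, φ, hφ, hlim⟩ :=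
    (isCompact_univ.prod (isCompact_closedBall (0 : Euc n) R')).tendsto_subseq ha1
  have hxy : x = y := by
    have e1 : Tendsto (fun k => t * d ((a (φ k)).1.1 - (a (φ k)).1.2)) atTop
        (𝓝 (t * d (x - y))) :=
      ((by fun_prop : Continuous fun q : (Torus n × Torus n) × Euc n =>
        t * d (q.1.1 - q.1.2)).tendsto _).comp hlim
    have e2 : Tendsto (fun k => 2 * C / (φ k : ℝ)) atTop (𝓝 0) :=
      (tendsto_const_div_atTop_nhds_zero_nat (2 * C)).comp hφ.tendsto_atTop
    have e3 : t * d (x - y) ≤ 0 := by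
      refine le_of_tendsto_of_tendsto e1 e2 ?_
      filter_upwards [eventually_ge_atTop 1] with k hk
      have hk' : (0 : ℝ) < φ k := by exact_mod_cast lt_of_lt_of_le (by omega) (hφ.le_apply (x := k))
      rw [le_div_iff₀ hk', mul_comm]
      exact ha5 (φ k)
    have e4 : d (x - y) = 0 := le_antisymm (by
      by_contra h; push Not at h; nlinarith [mul_pos ht0 h]) (hd0 _)
    exact sub_eq_zero.1 (hd2 _ e4)
  subst hxy
  refine ⟨x, p, fun z => ?_, ?_, ?_⟩
  · exact ge_of_tendsto' (((by fun_prop : Continuous fun q : (Torus n × Torus n) × Euc n =>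
      t * v q.1.1 + χ q.1.2 - w q.1.2).tendsto _).comp hlim) fun k => ha4 (φ k) z
  · exact le_of_tendsto' (((by fun_prop : Continuous fun q : (Torus n × Torus n) × Euc n =>
      H (q.1.1, q.2)).tendsto _).comp hlim) fun k => ha2 (φ k)
  · exact ge_of_tendsto' (((by fun_prop : Continuous fun q : (Torus n × Torus n) × Euc n =>
      H (q.1.2, t • q.2 + tgrad χ q.1.2)).tendsto _).comp hlim) fun k => ha3 (φ k)

/-- Comparison on the projected Mather set. -/
theorem comparison (hH : IsC2Ham H) (h1 : A1 H) (h2 : A2 H) {v w : Torus n → ℝ}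
    (hv : IsViscSol H 0 v) (hw : IsViscSol H 0 w) (hle : ∀ x ∈ matherSet H 0, v x ≤ w x)
    (z : Torus n) : v z ≤ w z := by
  have cv := hv.1
  have cw := hw.1
  refine le_of_forall_pos_le_add fun η hη => ?_
  set K : Set (Torus n) := {x | η ≤ v x - w x} with hK
  have hKc : IsClosed K := isClosed_le continuous_const (by fun_prop)
  obtain ⟨ψ, hψ, hpos⟩ := exists_psi hH h1 hKc (disjoint_left.2 fun x hx hxM => by
    have e1 := hle x hxM
    have e2 : η ≤ v x - w x := hx
    linarith)
  have hψ1 := hψ.of_two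
  obtain ⟨B, hB⟩ := (isCompact_range hψ1.continuous_tgrad).isBounded.exists_norm_le
  obtain ⟨Cv, hCv⟩ := (isCompact_range cv).isBounded.exists_norm_le
  obtain ⟨Cψ, hCψ⟩ := (isCompact_range hψ.continuous).isBounded.exists_norm_le
  have hCv' : ∀ x, |v x| ≤ Cv := fun x => hCv _ (mem_range_self x)
  have hCψ' : ∀ x, |ψ x| ≤ Cψ := fun x => hCψ _ (mem_range_self x)
  have key : ∀ t : ℝ, 0 < t → t < 1 → v z ≤ w z + η + 2 * (1 - t) * Cv := by
    intro t ht0 ht1
    obtain ⟨R', hR'⟩ := apriori hH h1 h2 ht0 ht1.le B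
    have hs := strict hH h2 hKc hψ hpos ht0 ht1 R'
    have hev : ∀ᶠ ε in 𝓝[>] (0 : ℝ), v z ≤ w z + η + 2 * (1 - t) * Cv + 2 * ε * Cψ := by
      filter_upwards [hs.filter_mono nhdsWithin_le_nhds, Ioo_mem_nhdsGT (zero_lt_one' ℝ)]
        with ε hε hε1
      obtain ⟨x, p, hx1, hx2, hx3⟩ := doubling hH h1 h2 hv hw (hψ1.const_mul (-ε)) ht0 ht1.le
      rw [tgrad_const_mul hψ1, neg_smul] at hx3
      have hp : ‖p‖ ≤ R' := hR' x x p _ (by
        rw [norm_neg, norm_smul, Real.norm_of_nonneg hε1.1.le]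
        have := hB _ (mem_range_self x)
        nlinarith [hε1.1, hε1.2, norm_nonneg (tgrad ψ x)]) hx2 hx3
      have hxK : x ∉ K := fun hxK => absurd (hε hε1.1 x hxK p hp hx2) (not_lt.2 hx3)
      have e1 : v x - w x < η := not_le.1 hxK
      have e2 := hx1 z
      have e3 := abs_le.1 (hCv' x)
      have e4 := abs_le.1 (hCv' z)
      have e5 := abs_le.1 (hCψ' x)
      have e6 := abs_le.1 (hCψ' z)
      have e7 : 0 < 1 - t := by linarith
      nlinarith [hε1.1, mul_le_mul_of_nonneg_left e3.1 e7.le, mul_le_mul_of_nonneg_left e4.2 e7.le,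
        mul_le_mul_of_nonneg_left e5.1 hε1.1.le, mul_le_mul_of_nonneg_left e6.2 hε1.1.le]
    have hlim : Tendsto (fun ε : ℝ => w z + η + 2 * (1 - t) * Cv + 2 * ε * Cψ) (𝓝[>] 0)
        (𝓝 (w z + η + 2 * (1 - t) * Cv)) := by
      have : Continuous fun ε : ℝ => w z + η + 2 * (1 - t) * Cv + 2 * ε * Cψ := by fun_prop
      simpa using (this.tendsto 0).mono_left (nhdsWithin_le_nhds (s := Ioi 0))
    exact ge_of_tendsto hlim hev
  have hlim : Tendsto (fun t : ℝ => w z + η + 2 * (1 - t) * Cv) (𝓝[<] 1) (𝓝 (w z + η)) := by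
    have : Continuous fun t : ℝ => w z + η + 2 * (1 - t) * Cv := by fun_prop
    simpa using (this.tendsto 1).mono_left (nhdsWithin_le_nhds (s := Iio 1))
  refine ge_of_tendsto hlim ?_
  filter_upwards [Ioo_mem_nhdsLT (zero_lt_one' ℝ)] with t ht
  exact key t ht.1 ht.2

end Pool.Agent.P.MP_44d257_an
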