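import Mathlib
import Pool.Agent.P.MP_44d257_an.Main

/-! The projected Mather set is a uniqueness set under (A1) alone, at every level `c`. -/

set_option autoImplicit false
open MeasureTheory Set Filter Topology
open scoped RealInnerProductSpace Real

namespace Pool.Agent.P.MP_44d257_an

variable {n : ℕ} {H : Torus n × Euc n → ℝ} {c : ℝ}

/-- (A1) forces `H ≠ c` for large momenta (recurrence of the linear flow). -/
lemma ne_of_large (hH : IsC2Ham H) (h1 : A1 H) (c : ℝ) :
    ∃ R : ℝ, 0 ≤ R ∧ ∀ (x : Torus n) (p : Euc n), R ≤ ‖p‖ → H (x, p) ≠ c := by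
  obtain ⟨R, hR⟩ := h1 (1 / 2 * (|c| + 1) ^ 2 + 1)
  refine ⟨max R 0, le_max_right _ _, fun x p hp h0 => ?_⟩
  have hp' : R ≤ ‖p‖ := (le_max_left _ _).trans hp
  set f : ℝ → ℝ := fun s => H (x + proj (s • p), p) with hf
  set f' : ℝ → ℝ := fun s => ⟪Dx H (x + proj (s • p), p), p⟫ with hf'
  have hd : ∀ s, HasDerivAt f (f' s) s := fun s => hH.hasDerivAt_x x p p s
  have hb : ∀ s, c ≤ f s → f s ≤ c + 1 → 1 ≤ f' s := fun s a b => by
    have e : 1 / 2 * (|c| + 1) ^ 2 + 1 ≤ 1 / 2 * f s ^ 2 + f' s := hR p hp' _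
    have e1 := le_abs_self c
    have e2 := neg_abs_le c
    have e3 : f s ^ 2 ≤ (|c| + 1) ^ 2 := sq_le_sq' (by linarith) (by linarith)
    linarith
  have hf0 : f 0 = c := by simp [hf, proj_zero, h0]
  have hc : Continuous f := continuous_iff_continuousAt.2 fun s => (hd s).continuousAt
  obtain ⟨s₁, hs₁, hη0, hη1⟩ : ∃ s₁ : ℝ, 0 < s₁ ∧ c < f s₁ ∧ f s₁ < c + 1 := by
    have e1 : 0 < f' 0 := by have := hb 0 hf0.ge (by linarith); linarith
    have e2 := (hasDerivAt_iff_tendsto_slope_left_right.1 (hd 0)).2.eventually (lt_mem_nhds e1)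
    have e3 : ∀ᶠ s in 𝓝[>] (0 : ℝ), f s < c + 1 :=
      (hc.continuousAt.eventually (gt_mem_nhds (by rw [hf0]; linarith))).filter_mono
        nhdsWithin_le_nhds
    obtain ⟨s, ⟨h2, h3⟩, h4⟩ := ((e2.and e3).and self_mem_nhdsWithin).exists
    refine ⟨s, h4, ?_, h3⟩
    rw [slope_def_field, hf0, sub_zero] at h2
    have := (div_pos_iff_of_pos_right h4).1 h2
    linarith
  have hge : ∀ s, s₁ ≤ s → f s₁ ≤ f s := by
    intro s hs
    have := image_le_of_deriv_right_lt_deriv_boundary (f := fun s => -f s) (f' := fun s => -f' s)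
      (a := s₁) (b := s) hc.neg.continuousOn (fun y _ => (hd y).neg.hasDerivWithinAt)
      (B := fun _ => -f s₁) (B' := fun _ => 0) le_rfl (fun y => hasDerivAt_const y _)
      (fun y _ hy => by
        have h6 : f y = f s₁ := by linarith
        have h5 := hb y (by linarith) (by linarith)
        linarith) (right_mem_Icc.2 hs)
    linarith
  have hcl : IsClosed {y : Torus n | f s₁ ≤ H (x + y, p)} :=
    isClosed_le continuous_const (hH.continuous.comp (by fun_prop))
  have hmem : (0 : Torus n) ∈ {y : Torus n | f s₁ ≤ H (x + y, p)} := by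
    refine hcl.mem_of_mapClusterPt (mapClusterPt_zero_atTop_nsmul (proj (s₁ • p))) ?_
    filter_upwards [eventually_ge_atTop 1] with k hk
    have hk' : (1 : ℝ) ≤ k := by exact_mod_cast hk
    have := hge (k * s₁) (by nlinarith)
    simp only [hf] at this ⊢
    rw [← proj_nsmul, ← Nat.cast_smul_eq_nsmul ℝ, smul_smul]
    exact this
  rw [mem_ofPred_eq, add_zero, h0] at hmem
  linarith

/-- A priori bound on the momenta in the doubling argument. -/
lemma apriori_gen (hH : IsC2Ham H) (h1 : A1 H) (c : ℝ) {t : ℝ} (ht0 : 0 < t) (B : ℝ) :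
    ∃ R' : ℝ, ∀ (x y : Torus n) (p q : Euc n), ‖q‖ ≤ B → H (x, p) ≤ c →
      c ≤ H (y, t • p + q) → ‖p‖ ≤ R' := by
  obtain ⟨R, hR0, hR⟩ := ne_of_large hH h1 c
  have hm : 0 < min t 1 := lt_min ht0 one_pos
  refine ⟨(R + B) / min t 1, fun x y p q hq hx hy => ?_⟩
  by_contra hp
  push Not at hp
  rw [div_lt_iff₀ hm] at hp
  obtain ⟨a, rfl⟩ := surjective_proj x
  obtain ⟨b, rfl⟩ := surjective_proj y
  have hc : Continuous fun s : ℝ => H (proj (a + s • (b - a)), (1 + s * (t - 1)) • p + s • q) :=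
    hH.continuous.comp (by fun_prop)
  obtain ⟨s, hs, hs0⟩ := intermediate_value_Icc (zero_le_one' ℝ) hc.continuousOn
    (show c ∈ Icc _ _ from ⟨by simpa using hx, by simpa using hy⟩)
  refine hR _ _ ?_ hs0
  have e1 : ‖(1 + s * (t - 1)) • p‖ ≤ ‖(1 + s * (t - 1)) • p + s • q‖ + ‖s • q‖ := by
    simpa using norm_sub_le ((1 + s * (t - 1)) • p + s • q) (s • q)
  have e2 : ‖s • q‖ ≤ B := by
    rw [norm_smul, Real.norm_of_nonneg hs.1]
    nlinarith [hs.1, hs.2, norm_nonneg q]
  have e3 : min t 1 ≤ 1 + s * (t - 1) := by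
    have a1 := min_le_left t 1
    have a2 := min_le_right t 1
    nlinarith [mul_le_mul_of_nonneg_left a1 hs.1, mul_le_mul_of_nonneg_left a2 (sub_nonneg.2 hs.2)]
  rw [norm_smul, Real.norm_of_nonneg (hm.le.trans e3)] at e1
  nlinarith [mul_le_mul_of_nonneg_right e3 (norm_nonneg p)]

/-- Off the Mather set there is a field `Dψ(x) + s p` that crosses the level set upwards. -/
lemma exists_field (hH : IsC2Ham H) (h1 : A1 H) {K : Set (Torus n)} (hK : IsClosed K)
    (hKM : Disjoint K (matherSet H c)) :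
    ∃ (ψ : Torus n → ℝ) (s : ℝ), IsC 2 ψ ∧ ∀ x ∈ K, ∀ p : Euc n, H (x, p) = c →
      0 < ⟪Dp H (x, p), tgrad ψ x + s • p⟫ := by
  obtain ⟨R, -, hR⟩ := ne_of_large hH h1 c
  set D : Set (Torus n × Euc n) := {z | z.1 ∈ K ∧ H z = c} with hD
  have cH := hH.continuous
  have cD := hH.continuous_Dp
  have hDc : IsClosed D := (hK.preimage continuous_fst).inter (isClosed_eq cH continuous_const)
  have hDk : IsCompact D := by
    refine (isCompact_univ.prod (isCompact_closedBall (0 : Euc n) R)).of_isClosed_subset hDc ?_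
    rintro ⟨x, p⟩ hz
    refine ⟨mem_univ _, ?_⟩
    rw [mem_closedBall_zero_iff]
    by_contra h
    exact hR x p (not_le.1 h).le hz.2
  have : CompactSpace D := isCompact_iff_compactSpace.1 hDk
  let V : Submodule ℝ C(D, ℝ) :=
    { carrier := {f | ∃ (φ : Torus n → ℝ) (s : ℝ), IsC 2 φ ∧
        ∀ z : D, f z = ⟪Dp H z.1, tgrad φ z.1.1 + s • z.1.2⟫}
      add_mem' := by
        rintro f g ⟨φ, s, hφ, hf⟩ ⟨ψ, r, hψ, hg⟩
        refine ⟨_, s + r, hφ.add hψ, fun z => ?_⟩
        rw [tgrad_add hφ.of_two hψ.of_two, add_smul, add_add_add_comm, inner_add_right, ← hf, ← hg]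
        rfl
      zero_mem' := ⟨fun _ => 0, 0, contDiff_const, fun z => by simp [tgrad]⟩
      smul_mem' := by
        rintro a f ⟨φ, s, hφ, hf⟩
        refine ⟨_, a * s, hφ.const_mul a, fun z => ?_⟩
        rw [tgrad_const_mul hφ.of_two, mul_smul, ← smul_add, inner_smul_right, ← hf]; rfl }
  by_contra hcon
  obtain ⟨ν, hν, hν0⟩ := exists_annihilator V (by
    rintro f ⟨φ, s, hφ, hf⟩ hpos
    refine hcon ⟨φ, s, hφ, fun x hx p hp1 => ?_⟩
    have := hpos ⟨(x, p), hx, hp1⟩
    rwa [hf] at this)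
  set μ : Measure (Torus n × Euc n) := ν.map Subtype.val with hμ
  have hemb : MeasurableEmbedding (Subtype.val : D → Torus n × Euc n) :=
    MeasurableEmbedding.subtype_coe hDc.measurableSet
  have hprob : IsProbabilityMeasure μ := Measure.isProbabilityMeasure_map hemb.measurable.aemeasurable
  have hae : ∀ᵐ z ∂μ, z ∈ D := by
    rw [hμ, hemb.ae_map_iff]
    exact Eventually.of_forall fun z => z.2
  have hint : ∀ F : Torus n × Euc n → ℝ, Continuous F → Integrable F μ := by
    intro F hF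
    rw [hμ, hemb.integrable_map_iff]
    exact (hF.comp continuous_subtype_val).integrable_of_hasCompactSupport
      (HasCompactSupport.of_compactSpace _)
  have hM : IsMather H c μ :=
    { prob := hprob
      radon := inferInstance
      level := hae.mono fun z hz => hz.2
      int_b := hint _ (by fun_prop)
      zero_b := by
        rw [hμ, hemb.integral_map]
        exact hν0 ⟨fun z => ⟪Dp H z.1, z.1.2⟫, by fun_prop⟩
          ⟨fun _ => 0, 1, contDiff_const, fun z => by simp [tgrad]⟩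
      int_c := fun φ hφ => hint _ (by have := hφ.of_two.continuous_tgrad; fun_prop)
      zero_c := fun φ hφ => by
        rw [hμ, hemb.integral_map]
        have := hφ.of_two.continuous_tgrad
        exact hν0 ⟨fun z => ⟪Dp H z.1, tgrad φ z.1.1⟫, by fun_prop⟩
          ⟨φ, 0, hφ, fun z => by simp⟩ }
  obtain ⟨z, hz⟩ := Measure.nonempty_support (IsProbabilityMeasure.ne_zero μ)
  have hzD : z ∈ D := Measure.support_subset_of_isClosed hDc hae hz
  refine disjoint_left.1 hKM hzD.1 (subset_closure ?_)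
  simp only [mem_iUnion]
  exact ⟨μ, hM, z, hz, rfl⟩

lemma exists_flow (s : ℝ) :
    ∃ a : ℝ → ℝ, a 0 = 0 ∧ ∀ τ, HasDerivAt a (1 - s * a τ) τ := by
  rcases eq_or_ne s 0 with rfl | hs
  · exact ⟨id, rfl, fun τ => by simpa using hasDerivAt_id τ⟩
  · refine ⟨fun τ => (1 - Real.exp (-s * τ)) / s, by simp, fun τ => ?_⟩
    have e1 : HasDerivAt (fun u => Real.exp (-s * u)) (Real.exp (-s * τ) * (-s)) τ := by
      simpa using ((hasDerivAt_id τ).const_mul (-s)).exp
    refine ((e1.const_sub 1).div_const s).congr_deriv ?_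
    field_simp
    ring

/-- The flow of `-(q + s p)` takes the sublevel set into the strict sublevel set. -/
lemma strict_flow (hH : IsC2Ham H) {x : Torus n} {q : Euc n} {s : ℝ}
    (hpos : ∀ p : Euc n, H (x, p) = c → 0 < ⟪Dp H (x, p), q + s • p⟫) {a : ℝ → ℝ} (ha0 : a 0 = 0)
    (ha : ∀ τ, HasDerivAt a (1 - s * a τ) τ) {p : Euc n} (hp : H (x, p) ≤ c) {τ : ℝ}
    (hτ : 0 < τ) : H (x, Real.exp (-s * τ) • p + (-a τ) • q) < c := by
  set γ : ℝ → Euc n := fun u => Real.exp (-s * u) • p + (-a u) • q with hγ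
  have hγ' : ∀ u, HasDerivAt γ (-(q + s • γ u)) u := fun u => by
    have e1 : HasDerivAt (fun u => Real.exp (-s * u)) (Real.exp (-s * u) * (-s)) u := by
      simpa using ((hasDerivAt_id u).const_mul (-s)).exp
    refine ((e1.smul_const p).add ((ha u).neg.smul_const q)).congr_deriv ?_
    simp only [hγ]
    module
  set g : ℝ → ℝ := fun u => H (x, γ u) with hg
  have hd : ∀ u, HasDerivAt g ⟪Dp H (x, γ u), -(q + s • γ u)⟫ u := fun u =>
    hH.hasDerivAt_p x (hγ' u)
  have hneg : ∀ u, g u = c → ⟪Dp H (x, γ u), -(q + s • γ u)⟫ < 0 := fun u hu => by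
    rw [inner_neg_right, neg_lt_zero]; exact hpos _ hu
  have hc : Continuous g := continuous_iff_continuousAt.2 fun u => (hd u).continuousAt
  have hle : ∀ u, 0 ≤ u → g u ≤ c := fun u hu =>
    image_le_of_deriv_right_lt_deriv_boundary (f := g) (a := 0) (b := u) hc.continuousOn
      (fun y _ => (hd y).hasDerivWithinAt) (B := fun _ => c) (B' := fun _ => 0)
      (by simpa [hg, hγ, ha0] using hp) (fun y => hasDerivAt_const y _)
      (fun y _ hy => hneg y hy) (right_mem_Icc.2 hu)
  refine lt_of_le_of_ne (hle τ hτ.le) fun h => ?_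
  have hmax : IsLocalMax g τ := by
    filter_upwards [lt_mem_nhds hτ] with u hu
    exact (hle u hu.le).trans (Eq.ge h)
  exact (hneg τ h).ne (hmax.hasDerivAt_eq_zero (hd τ))

/-- Doubling of variables. -/
lemma doubling_gen (hH : IsC2Ham H) (h1 : A1 H) {v w : Torus n → ℝ}
    (hv : IsViscSol H c v) (hw : IsViscSol H c w) {χ : Torus n → ℝ} (hχ : IsC 1 χ) {t : ℝ}
    (ht0 : 0 < t) :
    ∃ (x : Torus n) (p : Euc n), (∀ z, t * v z + χ z - w z ≤ t * v x + χ x - w x) ∧
      H (x, p) ≤ c ∧ c ≤ H (x, t • p + tgrad χ x) := by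
  obtain ⟨d, hd, hd0, hd1, hd2⟩ := exists_penal n
  have cv := hv.1
  have cw := hw.1
  have cχ := hχ.continuous
  have cd := hd.continuous
  have cg := hχ.continuous_tgrad
  have cH := hH.continuous
  obtain ⟨B, hB⟩ := (isCompact_range cg).isBounded.exists_norm_le
  obtain ⟨R', hR'⟩ := apriori_gen hH h1 c ht0 B
  obtain ⟨C, hC⟩ := (isCompact_range (f := fun q : Torus n × Torus n =>
    t * v q.1 + χ q.2 - w q.2) (by fun_prop)).isBounded.exists_norm_le
  have hC' : ∀ x y, |t * v x + χ y - w y| ≤ C := fun x y => hC _ ⟨(x, y), rfl⟩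
  have step : ∀ k : ℕ, ∃ a : (Torus n × Torus n) × Euc n,
      a ∈ (univ : Set (Torus n × Torus n)) ×ˢ Metric.closedBall (0 : Euc n) R' ∧
      H (a.1.1, a.2) ≤ c ∧ c ≤ H (a.1.2, t • a.2 + tgrad χ a.1.2) ∧
      (∀ z, t * v z + χ z - w z ≤ t * v a.1.1 + χ a.1.2 - w a.1.2) ∧
      k * (t * d (a.1.1 - a.1.2)) ≤ 2 * C := by
    intro k
    obtain ⟨⟨x, y⟩, -, hmax⟩ := isCompact_univ.exists_isMaxOn (univ_nonempty)
      (f := fun q : Torus n × Torus n => t * v q.1 + χ q.2 - w q.2 - k * (t * d (q.1 - q.2)))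
      (by fun_prop)
    have hm : ∀ x' y', t * v x' + χ y' - w y' - k * (t * d (x' - y'))
        ≤ t * v x + χ y - w y - k * (t * d (x - y)) := fun x' y' => hmax (mem_univ (x', y'))
    have e1 := hv.2.1 (fun x' => k * d (x' - y)) x ((hd.comp_sub y).const_mul k)
      (Eventually.of_forall fun x' => by
        have := hm x' y
        refine le_of_mul_le_mul_left ?_ ht0
        simp only
        linarith)
    have e2 := hw.2.2 (fun y' => (-(k * t)) * d (x - y') + χ y') y
      (((hd.comp_const_sub x).const_mul _).add hχ)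
      (Eventually.of_forall fun y' => by
        have := hm x y'
        simp only
        linarith)
    rw [tgrad_const_mul (hd.comp_sub y), tgrad_comp_sub] at e1
    rw [tgrad_add ((hd.comp_const_sub x).const_mul _) hχ, tgrad_const_mul (hd.comp_const_sub x),
      tgrad_comp_const_sub hd] at e2
    have e3 : -(k * t) • -tgrad d (x - y) = t • (k : ℝ) • tgrad d (x - y) := by
      rw [smul_smul, neg_smul_neg, mul_comm]
    rw [e3] at e2
    have e4 : 0 ≤ k * (t * d (x - y)) := by have := hd0 (x - y); positivity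
    refine ⟨((x, y), (k : ℝ) • tgrad d (x - y)), ⟨mem_univ _, ?_⟩, e1, e2, fun z => ?_, ?_⟩
    · exact mem_closedBall_zero_iff.2 (hR' x y _ _ (hB _ (mem_range_self y)) e1 e2)
    · have := hm z z
      rw [sub_self, hd1] at this
      simp only
      linarith
    · have := hm x x
      rw [sub_self, hd1] at this
      have e5 := abs_le.1 (hC' x x)
      have e6 := abs_le.1 (hC' x y)
      simp only
      linarith
  choose a ha1 ha2 ha3 ha4 ha5 using step
  obtain ⟨⟨⟨x, y⟩, p⟩, -, φ, hφ, hlim⟩ :=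
    (isCompact_univ.prod (isCompact_closedBall (0 : Euc n) R')).tendsto_subseq ha1
  have hxy : x = y := by
    have e1 : Tendsto (fun k => t * d ((a (φ k)).1.1 - (a (φ k)).1.2)) atTop
        (𝓝 (t * d (x - y))) :=
      ((by fun_prop : Continuous fun q : (Torus n × Torus n) × Euc n =>
        t * d (q.1.1 - q.1.2)).tendsto _).comp hlim
    have e2 : Tendsto (fun k => 2 * C / (φ k : ℝ)) atTop (𝓝 0) :=
      (tendsto_const_div_atTop_nhds_zero_nat (2 * C)).comp hφ.tendsto_atTop
    have e3 : t * d (x - y) ≤ 0 := by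
      refine le_of_tendsto_of_tendsto e1 e2 ?_
      filter_upwards [eventually_ge_atTop 1] with k hk
      have hk' : (0 : ℝ) < φ k := by exact_mod_cast lt_of_lt_of_le (by omega) (hφ.le_apply (x := k))
      rw [le_div_iff₀ hk', mul_comm]
      exact ha5 (φ k)
    have e4 : d (x - y) = 0 := le_antisymm (by
      by_contra h; push Not at h; nlinarith [mul_pos ht0 h]) (hd0 _)
    exact sub_eq_zero.1 (hd2 _ e4)
  subst hxy
  refine ⟨x, p, fun z => ?_, ?_, ?_⟩
  · exact ge_of_tendsto' (((by fun_prop : Continuous fun q : (Torus n × Torus n) × Euc n =>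
      t * v q.1.1 + χ q.1.2 - w q.1.2).tendsto _).comp hlim) fun k => ha4 (φ k) z
  · exact le_of_tendsto' (((by fun_prop : Continuous fun q : (Torus n × Torus n) × Euc n =>
      H (q.1.1, q.2)).tendsto _).comp hlim) fun k => ha2 (φ k)
  · exact ge_of_tendsto' (((by fun_prop : Continuous fun q : (Torus n × Torus n) × Euc n =>
      H (q.1.2, t • q.2 + tgrad χ q.1.2)).tendsto _).comp hlim) fun k => ha3 (φ k)

/-- Comparison on the projected Mather set, under (A1) alone and at every level. -/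
theorem comparison_gen (hH : IsC2Ham H) (h1 : A1 H) {v w : Torus n → ℝ}
    (hv : IsViscSol H c v) (hw : IsViscSol H c w) (hle : ∀ x ∈ matherSet H c, v x ≤ w x)
    (z : Torus n) : v z ≤ w z := by
  have cv := hv.1
  have cw := hw.1
  refine le_of_forall_pos_le_add fun η hη => ?_
  set K : Set (Torus n) := {x | η ≤ v x - w x} with hK
  have hKc : IsClosed K := isClosed_le continuous_const (by fun_prop)
  obtain ⟨ψ, s, hψ, hpos⟩ := exists_field hH h1 hKc (disjoint_left.2 fun x hx hxM => by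
    have e1 := hle x hxM
    have e2 : η ≤ v x - w x := hx
    linarith)
  obtain ⟨a, ha0, ha⟩ := exists_flow s
  have hψ1 := hψ.of_two
  obtain ⟨Cv, hCv⟩ := (isCompact_range cv).isBounded.exists_norm_le
  obtain ⟨Cψ, hCψ⟩ := (isCompact_range hψ.continuous).isBounded.exists_norm_le
  have hCv' : ∀ x, |v x| ≤ Cv := fun x => hCv _ (mem_range_self x)
  have hCψ' : ∀ x, |ψ x| ≤ Cψ := fun x => hCψ _ (mem_range_self x)
  have key : ∀ τ : ℝ, 0 < τ →
      v z ≤ w z + η + 2 * (|1 - Real.exp (-s * τ)| * Cv) + 2 * (|a τ| * Cψ) := by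
    intro τ hτ
    obtain ⟨x, p, hx1, hx2, hx3⟩ :=
      doubling_gen hH h1 hv hw (hψ1.const_mul (-a τ)) (Real.exp_pos (-s * τ))
    rw [tgrad_const_mul hψ1] at hx3
    have hxK : x ∉ K := fun hxK =>
      absurd (strict_flow hH (hpos x hxK) ha0 ha hx2 hτ) (not_lt.2 hx3)
    have e1 : v x - w x < η := not_le.1 hxK
    have e2 := hx1 z
    have b1 : ∀ y, |(1 - Real.exp (-s * τ)) * v y| ≤ |1 - Real.exp (-s * τ)| * Cv := fun y => by
      rw [abs_mul]; exact mul_le_mul_of_nonneg_left (hCv' y) (abs_nonneg _)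
    have b2 : ∀ y, |a τ * ψ y| ≤ |a τ| * Cψ := fun y => by
      rw [abs_mul]; exact mul_le_mul_of_nonneg_left (hCψ' y) (abs_nonneg _)
    have e3 := abs_le.1 (b1 x)
    have e4 := abs_le.1 (b1 z)
    have e5 := abs_le.1 (b2 x)
    have e6 := abs_le.1 (b2 z)
    linarith [e3.1, e4.2, e5.1, e6.2]
  have ca : Continuous a := continuous_iff_continuousAt.2 fun u => (ha u).continuousAt
  have hlim : Tendsto
      (fun τ : ℝ => w z + η + 2 * (|1 - Real.exp (-s * τ)| * Cv) + 2 * (|a τ| * Cψ)) (𝓝[>] 0)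
      (𝓝 (w z + η)) := by
    have : Continuous fun τ : ℝ =>
        w z + η + 2 * (|1 - Real.exp (-s * τ)| * Cv) + 2 * (|a τ| * Cψ) := by fun_prop
    simpa [ha0] using (this.tendsto 0).mono_left (nhdsWithin_le_nhds (s := Ioi 0))
  refine ge_of_tendsto hlim ?_
  filter_upwards [self_mem_nhdsWithin] with τ hτ
  exact key τ hτ

end Pool.Agent.P.MP_44d257_an
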